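import Pool.Agent.Q54.KP.All

/-!
# Almost perfect tripartite packings in regular 3-graphs (MP_b50c09_co): positive answer

For every tripartite 3-graph `H` (all part sizes, equal or not) and every `0 < c < 1` there is a
constant `C` such that every vertex-regular 3-graph on `n` vertices with vertex degree at least
`c n ^ 2` and all pair degrees at least `c n` has an `H`-packing covering all but at most `C`
vertices.  Also: almost regular 3-graphs suffice (all degrees between `(1 - ε) d` and
`(1 + ε) d`, `d ≥ c n ^ 2`, with `ε` depending on `H` and `c` only).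

Proof (project KP, `Pool.Agent.Q54.KP`): `H` is contained in the complete tripartite 3-graph `K`
with parts of size `t`.  (1) Near perfect fractional `K`-tilings with bounded weights: a quadratic
program; a minimiser which is not near perfect has a level structure which contradicts the
almost regularity and the pair degrees.  (2) A weighted nibble turns them into packings.
(3) Absorption: the vertices fall into boundedly many closed classes, and the pair degrees give
enough index vectors to generate the full lattice of vectors with coordinate sum `0` modulo `3 t`.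
-/

set_option autoImplicit false

namespace Pool.Agent.Results.MP_b50c09_co.AlmostPerfectPackings

open Finset

/-- the 3-graph with edge set `H` on `W` is tripartite: the vertices can be split into three parts
such that every edge has exactly one vertex in each part -/
def Tripartite {W : Type} [DecidableEq W] (H : Finset (Finset W)) : Prop :=
  ∃ f : W → Fin 3, ∀ e ∈ H, ∀ i : Fin 3, (e.filter (fun v => f v = i)).card = 1

/-- `φ` maps the edges of `H` to edges of `E`: its image carries a copy of `H` in `E` -/
def IsCopy {W V : Type} (H : Finset (Finset W)) (E : Finset (Finset V)) (φ : W ↪ V) : Prop :=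
  ∀ e ∈ H, e.map φ ∈ E

/-- the degree of a vertex: the number of edges which contain it -/
def deg {V : Type} [DecidableEq V] (E : Finset (Finset V)) (v : V) : ℕ :=
  (E.filter (fun e => v ∈ e)).card

/-- the degree of a pair: the number of edges which contain both vertices -/
def pdeg {V : Type} [DecidableEq V] (E : Finset (Finset V)) (u v : V) : ℕ :=
  (E.filter (fun e => u ∈ e ∧ v ∈ e)).card

/-- there are pairwise vertex-disjoint copies of `H` in `E` which cover all but at most `C`
vertices -/
def Packs {W V : Type} [Fintype W] [Fintype V] [DecidableEq V] (H : Finset (Finset W))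
    (E : Finset (Finset V)) (C : ℕ) : Prop :=
  ∃ P : Finset (W ↪ V), (∀ φ ∈ P, IsCopy H E φ) ∧
    (∀ φ ∈ P, ∀ ψ ∈ P, φ ≠ ψ → Disjoint (univ.map φ) (univ.map ψ)) ∧
    (univ.filter (fun v => ∀ φ ∈ P, v ∉ univ.map φ)).card ≤ C

/-- **Q1, positive answer** (first part), and the almost regular version (second part). -/
theorem result :
    (∀ (W : Type) [Fintype W] [DecidableEq W] [Nonempty W] (H : Finset (Finset W)), Tripartite H →
      ∀ c : ℝ, 0 < c → c < 1 → ∃ C : ℕ,
      ∀ (V : Type) [Fintype V] [DecidableEq V] (E : Finset (Finset V)) (d : ℕ),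
        (∀ e ∈ E, e.card = 3) → (∀ v, deg E v = d) → c * (Fintype.card V : ℝ) ^ 2 ≤ (d : ℝ) →
        (∀ u v, u ≠ v → c * (Fintype.card V : ℝ) ≤ (pdeg E u v : ℝ)) → Packs H E C) ∧
    (∀ (W : Type) [Fintype W] [DecidableEq W] [Nonempty W] (H : Finset (Finset W)), Tripartite H →
      ∀ c : ℝ, 0 < c → c < 1 → ∃ ε : ℝ, 0 < ε ∧ ∃ C : ℕ,
      ∀ (V : Type) [Fintype V] [DecidableEq V] (E : Finset (Finset V)) (d : ℝ),
        (∀ e ∈ E, e.card = 3) → c * (Fintype.card V : ℝ) ^ 2 ≤ d →
        (∀ v, (1 - ε) * d ≤ (deg E v : ℝ) ∧ (deg E v : ℝ) ≤ (1 + ε) * d) →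
        (∀ u v, u ≠ v → c * (Fintype.card V : ℝ) ≤ (pdeg E u v : ℝ)) → Packs H E C) := by
  have key := Pool.Agent.Q54.KP.t_FIN
  refine ⟨?_, ?_⟩
  · intro W _ _ _ H hH c h0 h1
    obtain ⟨ε, hε, C, hC⟩ := key W H hH c h0 h1
    refine ⟨C, ?_⟩
    intro V _ _ E d h3 hreg hd hp
    have hd0 : (0 : ℝ) ≤ (d : ℝ) := Nat.cast_nonneg d
    refine hC V E (d : ℝ) h3 hd (fun v => ?_) hp
    have hv : (Pool.Agent.Q54.KP.deg E v : ℝ) = (d : ℝ) := by
      have := hreg v
      unfold deg at this
      unfold Pool.Agent.Q54.KP.deg
      rw [this]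
    rw [hv]
    constructor <;> nlinarith
  · intro W _ _ _ H hH c h0 h1
    exact key W H hH c h0 h1

end Pool.Agent.Results.MP_b50c09_co.AlmostPerfectPackings
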